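import Mathlib

/-!
# The expectation form of the ultimate matching conjecture

For every pair of exponents `α₁, α₂ > 0` with `1/α₁ + 1/α₂ = 1/2` and every constant `C > 0` the
expectation of `min_σ M_n(σ)` grows faster than `exp (K n)` for every `K`; in particular it is not
at most `C n`.
-/

set_option autoImplicit false

open MeasureTheory Filter Topology

namespace Pool.Agent.Results.MP_c6df36_pr.ExpectationForm

noncomputable section

/-- Points of the plane. -/
abbrev Pt : Type := Fin 2 → ℝ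

/-- The uniform distribution on the unit square `[0,1]²`. -/
def unif : Measure Pt := (volume : Measure Pt).restrict (Set.Icc 0 1)

/-- The joint law of `2n` independent uniform points `X_1, …, X_n` (first component) and
`Y_1, …, Y_n` (second component) of the unit square. -/
def law (n : ℕ) : Measure ((Fin n → Pt) × (Fin n → Pt)) :=
  (Measure.pi fun _ : Fin n => unif).prod (Measure.pi fun _ : Fin n => unif)

/-- The sum `∑_i exp (((1/C) √(n / log n) |X_i^j - Y_{σ(i)}^j|)^{α_j})` for the coordinate `j`. -/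
def coordCost (α : Fin 2 → ℝ) (C : ℝ) (n : ℕ) (x : (Fin n → Pt) × (Fin n → Pt))
    (σ : Equiv.Perm (Fin n)) (j : Fin 2) : ℝ :=
  ∑ i, Real.exp ((1 / C * Real.sqrt (n / Real.log n) * |x.1 i j - x.2 (σ i) j|) ^ α j)

/-- `M_n(σ)`, the larger of the two coordinate sums. -/
def M (α : Fin 2 → ℝ) (C : ℝ) (n : ℕ) (x : (Fin n → Pt) × (Fin n → Pt))
    (σ : Equiv.Perm (Fin n)) : ℝ :=
  max (coordCost α C n x σ 0) (coordCost α C n x σ 1)

/-- `min_σ M_n(σ)` over all permutations `σ` of the `n` indices. -/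
def minM (α : Fin 2 → ℝ) (C : ℝ) (n : ℕ) (x : (Fin n → Pt) × (Fin n → Pt)) : ℝ :=
  ⨅ σ : Equiv.Perm (Fin n), M α C n x σ

instance unif_prob : IsProbabilityMeasure unif := by
  constructor
  unfold unif
  rw [Measure.restrict_apply MeasurableSet.univ, Set.univ_inter, Real.volume_Icc_pi]
  simp

instance law_prob (n : ℕ) : IsProbabilityMeasure (law n) := by
  unfold law; infer_instance

lemma measurable_coordCost (α : Fin 2 → ℝ) (C : ℝ) (n : ℕ) (σ : Equiv.Perm (Fin n)) (j : Fin 2) :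
    Measurable fun x : (Fin n → Pt) × (Fin n → Pt) => coordCost α C n x σ j := by
  unfold coordCost
  refine Finset.measurable_sum _ fun i _ => ?_
  have h1 : Measurable fun x : (Fin n → Pt) × (Fin n → Pt) => x.1 i j :=
    (measurable_pi_apply j).comp ((measurable_pi_apply i).comp measurable_fst)
  have h2 : Measurable fun x : (Fin n → Pt) × (Fin n → Pt) => x.2 (σ i) j :=
    (measurable_pi_apply j).comp ((measurable_pi_apply (σ i)).comp measurable_snd)
  refine Real.measurable_exp.comp ?_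
  refine Measurable.pow_const ?_ _
  exact measurable_const.mul (h1.sub h2).abs

lemma measurable_minM (α : Fin 2 → ℝ) (C : ℝ) (n : ℕ) : Measurable (minM α C n) := by
  unfold minM
  refine Measurable.iInf fun σ => ?_
  exact (measurable_coordCost α C n σ 0).max (measurable_coordCost α C n σ 1)

lemma coordCost_nonneg (α : Fin 2 → ℝ) (C : ℝ) (n : ℕ) (x : (Fin n → Pt) × (Fin n → Pt))
    (σ : Equiv.Perm (Fin n)) (j : Fin 2) : 0 ≤ coordCost α C n x σ j :=
  Finset.sum_nonneg fun _ _ => (Real.exp_pos _).le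

lemma minM_nonneg (α : Fin 2 → ℝ) (C : ℝ) (n : ℕ) (x : (Fin n → Pt) × (Fin n → Pt)) :
    0 ≤ minM α C n x :=
  le_ciInf fun σ => (coordCost_nonneg α C n x σ 0).trans (le_max_left _ _)

lemma unif_ae : ∀ᵐ p ∂unif, p ∈ Set.Icc (0 : Pt) 1 := by
  unfold unif
  exact ae_restrict_mem measurableSet_Icc

lemma law_ae (n : ℕ) : ∀ᵐ x ∂(law n),
    (∀ i, x.1 i ∈ Set.Icc (0 : Pt) 1) ∧ ∀ i, x.2 i ∈ Set.Icc (0 : Pt) 1 := by
  have h : ∀ᵐ y ∂(Measure.pi fun _ : Fin n => unif), ∀ i, y i ∈ Set.Icc (0 : Pt) 1 := by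
    rw [ae_all_iff]
    intro i
    exact (Measure.tendsto_eval_ae_ae (μ := fun _ : Fin n => unif) (i := i)).eventually unif_ae
  unfold law
  have h1 : ∀ᵐ x ∂((Measure.pi fun _ : Fin n => unif).prod (Measure.pi fun _ : Fin n => unif)),
      ∀ i, x.1 i ∈ Set.Icc (0 : Pt) 1 :=
    Measure.quasiMeasurePreserving_fst.ae h
  have h2 : ∀ᵐ x ∂((Measure.pi fun _ : Fin n => unif).prod (Measure.pi fun _ : Fin n => unif)),
      ∀ i, x.2 i ∈ Set.Icc (0 : Pt) 1 :=
    Measure.quasiMeasurePreserving_snd.ae h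
  exact h1.and h2

lemma abs_sub_le_one {p q : Pt} (hp : p ∈ Set.Icc (0 : Pt) 1) (hq : q ∈ Set.Icc (0 : Pt) 1)
    (j : Fin 2) : |p j - q j| ≤ 1 := by
  have h1 := hp.1 j
  have h2 := hp.2 j
  have h3 := hq.1 j
  have h4 := hq.2 j
  simp only [Pi.zero_apply, Pi.one_apply] at h1 h2 h3 h4
  rw [abs_le]
  constructor <;> linarith

lemma integrable_minM (α : Fin 2 → ℝ) (h0 : 0 < α 0) (h1 : 0 < α 1) (C : ℝ) (hC : 0 < C) (n : ℕ) :
    Integrable (minM α C n) (law n) := by
  set B : ℝ := max (∑ _i : Fin n, Real.exp ((1 / C * Real.sqrt (n / Real.log n)) ^ α 0))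
    (∑ _i : Fin n, Real.exp ((1 / C * Real.sqrt (n / Real.log n)) ^ α 1)) with hB
  refine Integrable.of_bound (measurable_minM α C n).aestronglyMeasurable B ?_
  filter_upwards [law_ae n] with x hx
  rw [Real.norm_of_nonneg (minM_nonneg α C n x)]
  have hbd : BddBelow (Set.range fun σ : Equiv.Perm (Fin n) => M α C n x σ) :=
    ⟨0, by rintro _ ⟨σ, rfl⟩; exact (coordCost_nonneg α C n x σ 0).trans (le_max_left _ _)⟩
  refine (ciInf_le hbd (Equiv.refl _)).trans ?_
  have hs : 0 ≤ 1 / C * Real.sqrt (n / Real.log n) := by positivity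
  have key : ∀ j : Fin 2, 0 < α j → coordCost α C n x (Equiv.refl _) j ≤
      ∑ _i : Fin n, Real.exp ((1 / C * Real.sqrt (n / Real.log n)) ^ α j) := by
    intro j hj
    unfold coordCost
    refine Finset.sum_le_sum fun i _ => ?_
    refine Real.exp_le_exp.2 (Real.rpow_le_rpow (by positivity) ?_ hj.le)
    exact mul_le_of_le_one_right hs (abs_sub_le_one (hx.1 i) (hx.2 _) j)
  exact max_le_max (key 0 h0) (key 1 h1)

/-- The rare event: all `X_i` lie in the left quarter and all `Y_i` in the right quarter. -/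
def rare (n : ℕ) : Set ((Fin n → Pt) × (Fin n → Pt)) :=
  (Set.univ.pi fun _ => {p : Pt | p 0 ≤ 1 / 4}) ×ˢ (Set.univ.pi fun _ => {p : Pt | 3 / 4 ≤ p 0})

lemma meas_left : MeasurableSet {p : Pt | p 0 ≤ 1 / 4} :=
  measurableSet_le (measurable_pi_apply 0) measurable_const

lemma meas_right : MeasurableSet {p : Pt | 3 / 4 ≤ p 0} :=
  measurableSet_le measurable_const (measurable_pi_apply 0)

lemma unif_left : unif {p : Pt | p 0 ≤ 1 / 4} = ENNReal.ofReal (1 / 4) := by
  unfold unif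
  rw [Measure.restrict_apply meas_left]
  have : {p : Pt | p 0 ≤ 1 / 4} ∩ Set.Icc 0 1 = Set.Icc (0 : Pt) ![1 / 4, 1] := by
    ext p
    simp only [Set.mem_inter_iff, Set.mem_ofPred_eq, Set.mem_Icc, Pi.le_def, Fin.forall_fin_two,
      Pi.zero_apply, Pi.one_apply, Matrix.cons_val_zero, Matrix.cons_val_one]
    constructor
    · rintro ⟨h1, ⟨h2, h3⟩, h4, h5⟩
      exact ⟨⟨h2, h3⟩, h1, h5⟩
    · rintro ⟨⟨h2, h3⟩, h1, h5⟩
      exact ⟨h1, ⟨h2, h3⟩, by linarith, h5⟩
  rw [this, Real.volume_Icc_pi]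
  simp [Fin.prod_univ_two]

lemma unif_right : unif {p : Pt | 3 / 4 ≤ p 0} = ENNReal.ofReal (1 / 4) := by
  unfold unif
  rw [Measure.restrict_apply meas_right]
  have : {p : Pt | 3 / 4 ≤ p 0} ∩ Set.Icc 0 1 = Set.Icc (![3 / 4, 0] : Pt) 1 := by
    ext p
    simp only [Set.mem_inter_iff, Set.mem_ofPred_eq, Set.mem_Icc, Pi.le_def, Fin.forall_fin_two,
      Pi.zero_apply, Pi.one_apply, Matrix.cons_val_zero, Matrix.cons_val_one]
    constructor
    · rintro ⟨h1, ⟨h2, h3⟩, h4, h5⟩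
      exact ⟨⟨h1, h3⟩, h4, h5⟩
    · rintro ⟨⟨h2, h3⟩, h1, h5⟩
      exact ⟨h2, ⟨by linarith, h3⟩, h1, h5⟩
  rw [this, Real.volume_Icc_pi]
  simp only [Fin.prod_univ_two, Pi.one_apply, Matrix.cons_val_zero, Matrix.cons_val_one]
  rw [← ENNReal.ofReal_mul (by norm_num)]
  norm_num

lemma law_rare (n : ℕ) : (law n).real (rare n) = (1 / 16 : ℝ) ^ n := by
  unfold law rare
  rw [Measure.real, Measure.prod_prod, Measure.pi_pi, Measure.pi_pi]
  simp only [unif_left, unif_right, Finset.prod_const, Finset.card_univ, Fintype.card_fin]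
  rw [ENNReal.toReal_mul, ENNReal.toReal_pow, ENNReal.toReal_ofReal (by norm_num), ← mul_pow]
  norm_num

lemma minM_rare (α : Fin 2 → ℝ) (h0 : 0 < α 0) (C : ℝ) (hC : 0 < C) (n : ℕ)
    (x : (Fin n → Pt) × (Fin n → Pt)) (hx : x ∈ rare n) :
    n * Real.exp ((1 / (2 * C) * Real.sqrt (n / Real.log n)) ^ α 0) ≤ minM α C n x := by
  refine le_ciInf fun σ => le_trans ?_ (le_max_left _ _)
  unfold coordCost
  have hs : 0 ≤ 1 / C * Real.sqrt (n / Real.log n) := by positivity
  have : ∑ _i : Fin n, Real.exp ((1 / (2 * C) * Real.sqrt (n / Real.log n)) ^ α 0)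
      = n * Real.exp ((1 / (2 * C) * Real.sqrt (n / Real.log n)) ^ α 0) := by
    rw [Finset.sum_const, Finset.card_univ, Fintype.card_fin, nsmul_eq_mul]
  rw [← this]
  refine Finset.sum_le_sum fun i _ => ?_
  refine Real.exp_le_exp.2 (Real.rpow_le_rpow (by positivity) ?_ h0.le)
  have hx1 : x.1 i 0 ≤ 1 / 4 := hx.1 i (Set.mem_univ _)
  have hx2 : 3 / 4 ≤ x.2 (σ i) 0 := hx.2 (σ i) (Set.mem_univ _)
  have h3 : 1 / 2 ≤ |x.1 i 0 - x.2 (σ i) 0| := by
    rw [abs_sub_comm]
    exact le_trans (by linarith) (le_abs_self _)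
  calc 1 / (2 * C) * Real.sqrt (n / Real.log n)
      = 1 / C * Real.sqrt (n / Real.log n) * (1 / 2) := by
        rw [one_div, one_div, mul_inv]; ring
    _ ≤ _ := mul_le_mul_of_nonneg_left h3 hs

lemma integral_lower (α : Fin 2 → ℝ) (h0 : 0 < α 0) (h1 : 0 < α 1) (C : ℝ) (hC : 0 < C) (n : ℕ) :
    (1 / 16 : ℝ) ^ n * (n * Real.exp ((1 / (2 * C) * Real.sqrt (n / Real.log n)) ^ α 0)) ≤
      ∫ x, minM α C n x ∂(law n) := by
  have hms : MeasurableSet (rare n) :=
    (MeasurableSet.univ_pi fun _ => meas_left).prod (MeasurableSet.univ_pi fun _ => meas_right)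
  have hint := integrable_minM α h0 h1 C hC n
  calc (1 / 16 : ℝ) ^ n * (n * Real.exp ((1 / (2 * C) * Real.sqrt (n / Real.log n)) ^ α 0))
      = ∫ x in rare n, (n * Real.exp ((1 / (2 * C) * Real.sqrt (n / Real.log n)) ^ α 0))
          ∂(law n) := by
        rw [setIntegral_const, law_rare, smul_eq_mul]
    _ ≤ ∫ x in rare n, minM α C n x ∂(law n) := by
        refine setIntegral_mono_on (integrableOn_const (measure_ne_top _ _)) hint.integrableOn hms ?_
        intro x hx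
        exact minM_rare α h0 C hC n x hx
    _ ≤ ∫ x, minM α C n x ∂(law n) :=
        setIntegral_le_integral hint (Eventually.of_forall fun x => minM_nonneg α C n x)

/-- The exponent beats every multiple of `n`. -/
lemma exponent_large (a c L : ℝ) (ha : 2 < a) (hc : 0 < c) :
    ∀ᶠ n : ℕ in atTop, L * n ≤ (c * Real.sqrt (n / Real.log n)) ^ a := by
  set b : ℝ := a / 2 - 1 with hb
  have hb0 : 0 < b := by rw [hb]; linarith
  have hlit : (fun x : ℝ => Real.log x ^ (a / 2)) =o[atTop] fun x : ℝ => x ^ b :=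
    isLittleO_log_rpow_rpow_atTop _ hb0
  set ε : ℝ := c ^ a / (|L| + 1) with hε
  have hε0 : 0 < ε := by positivity
  have h1 := hlit.bound hε0
  have h2 : ∀ᶠ n : ℕ in atTop, ‖Real.log (n : ℝ) ^ (a / 2)‖ ≤ ε * ‖(n : ℝ) ^ b‖ :=
    tendsto_natCast_atTop_atTop.eventually h1
  filter_upwards [h2, eventually_ge_atTop 3] with n hn hn3
  have hn0 : (0 : ℝ) < n := by positivity
  have hlog : 0 < Real.log n := Real.log_pos (by exact_mod_cast (by omega : 1 < n))
  rw [Real.norm_of_nonneg (by positivity), Real.norm_of_nonneg (by positivity)] at hn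
  have e1 : (c * Real.sqrt (n / Real.log n)) ^ a
      = c ^ a * ((n : ℝ) ^ (a / 2) / Real.log n ^ (a / 2)) := by
    rw [Real.mul_rpow hc.le (Real.sqrt_nonneg _), Real.sqrt_eq_rpow, ← Real.rpow_mul (by positivity),
      show 1 / 2 * a = a / 2 by ring, Real.div_rpow hn0.le hlog.le]
  have e2 : (n : ℝ) ^ (a / 2) = n * (n : ℝ) ^ b := by
    rw [show a / 2 = 1 + b by rw [hb]; ring, Real.rpow_add hn0, Real.rpow_one]
  rw [e1, e2]
  have hlp : 0 < Real.log (n : ℝ) ^ (a / 2) := by positivity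
  have hL : L ≤ |L| + 1 := by linarith [le_abs_self L]
  calc L * n ≤ (|L| + 1) * n := mul_le_mul_of_nonneg_right hL hn0.le
    _ = c ^ a * (n * (1 / ε)) := by rw [hε]; field_simp
    _ ≤ c ^ a * (n * ((n : ℝ) ^ b / Real.log n ^ (a / 2))) := by
        refine mul_le_mul_of_nonneg_left (mul_le_mul_of_nonneg_left ?_ hn0.le) (by positivity)
        rw [div_le_div_iff₀ hε0 hlp]
        linarith
    _ = c ^ a * (n * (n : ℝ) ^ b / Real.log n ^ (a / 2)) := by ring

lemma expectation_large (α : Fin 2 → ℝ) (h0 : 0 < α 0) (h1 : 0 < α 1)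
    (hα : 1 / α 0 + 1 / α 1 = 1 / 2) (C : ℝ) (hC : 0 < C) (K : ℝ) :
    ∀ᶠ n : ℕ in atTop, Real.exp (K * n) ≤ ∫ x, minM α C n x ∂(law n) := by
  have ha : 2 < α 0 := by
    have h2 : 0 < 1 / α 1 := by positivity
    have h3 : 1 / α 0 < 1 / 2 := by linarith
    rw [div_lt_div_iff₀ h0 (by norm_num)] at h3
    linarith
  have h2 := exponent_large (α 0) (1 / (2 * C)) (K + Real.log 16) ha (by positivity)
  filter_upwards [h2, eventually_ge_atTop 1] with n hn hn1
  refine le_trans ?_ (integral_lower α h0 h1 C hC n)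
  have hn1' : (1 : ℝ) ≤ n := by exact_mod_cast hn1
  have e16 : (1 / 16 : ℝ) ^ n = Real.exp (-(Real.log 16 * n)) := by
    rw [one_div, inv_pow, Real.exp_neg, mul_comm, Real.exp_nat_mul, Real.exp_log (by norm_num)]
  calc Real.exp (K * n) = Real.exp (-(Real.log 16 * n)) * Real.exp ((K + Real.log 16) * n) := by
        rw [← Real.exp_add]; congr 1; ring
    _ ≤ Real.exp (-(Real.log 16 * n)) *
          Real.exp ((1 / (2 * C) * Real.sqrt (n / Real.log n)) ^ α 0) :=
        mul_le_mul_of_nonneg_left (Real.exp_le_exp.2 hn) (Real.exp_pos _).le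
    _ ≤ _ := by
        rw [e16]
        refine mul_le_mul_of_nonneg_left ?_ (Real.exp_pos _).le
        exact le_mul_of_one_le_left (Real.exp_pos _).le hn1'

/-- For all `α₁, α₂ > 0` with `1/α₁ + 1/α₂ = 1/2`, all `C > 0` and all `K`, the expectation of
`min_σ M_n(σ)` is finite and at least `exp (K n)` for all large `n`. In particular there are no
such exponents for which it is at most `C n` for some `C > 0` and all `n ≥ 2`. -/
theorem result :
    (∀ α : Fin 2 → ℝ, 0 < α 0 → 0 < α 1 → 1 / α 0 + 1 / α 1 = 1 / 2 → ∀ C : ℝ, 0 < C →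
      (∀ n : ℕ, Integrable (minM α C n) (law n)) ∧
      ∀ K : ℝ, ∀ᶠ n : ℕ in atTop, Real.exp (K * n) ≤ ∫ x, minM α C n x ∂(law n)) ∧
    (∀ α : Fin 2 → ℝ, 0 < α 0 → 0 < α 1 → 1 / α 0 + 1 / α 1 = 1 / 2 →
      ∀ C : ℝ, 0 < C → ∃ n : ℕ, 2 ≤ n ∧ C * n < ∫ x, minM α C n x ∂(law n)) ∧
    ¬ (∀ α : Fin 2 → ℝ, 0 < α 0 → 0 < α 1 → 1 / α 0 + 1 / α 1 = 1 / 2 →
      ∃ C : ℝ, 0 < C ∧ ∀ n : ℕ, 2 ≤ n → ∫ x, minM α C n x ∂(law n) ≤ C * n) := by
  have key : ∀ α : Fin 2 → ℝ, 0 < α 0 → 0 < α 1 → 1 / α 0 + 1 / α 1 = 1 / 2 →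
      ∀ C : ℝ, 0 < C → ∃ n : ℕ, 2 ≤ n ∧ C * n < ∫ x, minM α C n x ∂(law n) := by
    intro α h0 h1 hα C hC
    obtain ⟨n, hn, hn2⟩ :=
      ((expectation_large α h0 h1 hα C hC C).and (eventually_ge_atTop 2)).exists
    refine ⟨n, hn2, lt_of_lt_of_le ?_ hn⟩
    have := Real.add_one_le_exp (C * n)
    linarith
  refine ⟨fun α h0 h1 hα C hC => ⟨fun n => integrable_minM α h0 h1 C hC n,
    fun K => expectation_large α h0 h1 hα C hC K⟩, key, ?_⟩
  intro H
  obtain ⟨C, hC, h⟩ := H (fun _ => 4) (by norm_num) (by norm_num) (by norm_num)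
  obtain ⟨n, hn2, hn⟩ := key (fun _ => 4) (by norm_num) (by norm_num) (by norm_num) C hC
  exact absurd (h n hn2) (not_le.2 hn)

end

end Pool.Agent.Results.MP_c6df36_pr.ExpectationForm
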